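import Mathlib
import Pool.Agent.H466Z.MoserRect

/-!
Every countable family of axis-parallel rectangles with sides at most `1` and total area at least
`3` covers the unit square by translations.
-/

set_option autoImplicit false

namespace Pool.Agent.Results.MP_6800d9_co.AreaThree

universe u

theorem result (ι : Type u) [Countable ι] (a b : ι → ℝ)
    (ha : ∀ i, a i ∈ Set.Icc (0 : ℝ) 1) (hb : ∀ i, b i ∈ Set.Icc (0 : ℝ) 1)
    (T : ℝ) (hT : 3 ≤ T) (hsum : HasSum (fun i => a i * b i) T) :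
    ∃ v : ι → ℝ × ℝ, Set.Icc (0 : ℝ) 1 ×ˢ Set.Icc (0 : ℝ) 1 ⊆
      ⋃ i, (fun p : ℝ × ℝ => p + v i) '' (Set.Icc (0 : ℝ) (a i) ×ˢ Set.Icc (0 : ℝ) (b i)) := by
  obtain ⟨v, hv⟩ := Pool.Agent.H466Z.Moser.cover a b (fun i => (ha i).1) (fun i => (ha i).2)
    (fun i => (hb i).1) (fun i => (hb i).2) T hT hsum
  refine ⟨v, fun p hp => ?_⟩
  obtain ⟨i, h1, h2, h3, h4⟩ := hv p.1 p.2 hp.1.1 hp.1.2 hp.2.1 hp.2.2
  refine Set.mem_iUnion.2 ⟨i, p - v i, ⟨⟨?_, ?_⟩, ?_, ?_⟩, sub_add_cancel _ _⟩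
  · simp only [Prod.fst_sub]; linarith
  · simp only [Prod.fst_sub]; linarith
  · simp only [Prod.snd_sub]; linarith
  · simp only [Prod.snd_sub]; linarith

end Pool.Agent.Results.MP_6800d9_co.AreaThree
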